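import Pool.Agent.helper16.CVL.SpecE

set_option autoImplicit false

open Complex Metric Set Filter Topology MeasureTheory
open HY (UD T S hd UN RM)
open RT (UC TD rm lf cr pd bl gr hdf Lf UP)
open PL (DK ht tr SUBH INR)

noncomputable section

namespace CVL

theorem HDI_zero_mem : (0 : ℂ) ∈ UD := by
  show (0 : ℂ) ∈ ball (0 : ℂ) 1
  exact mem_ball_self one_pos

theorem HDI (hHDM : HDM_stmt) (hISO : ISO_stmt) (hTLF : RT.TLF_stmt) (hTDF : RT.TDF_stmt) : HDI_stmt := by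
  intro s Ω X G c hΩ hX hne hG hmap hc hle
  have h0 := HDI_zero_mem
  have hone : ∀ a ∈ Ω, hdf G Ω X a = 1 := by
    intro a ha
    have hGa : G a ∈ X := hmap ha
    obtain ⟨hUa, -, -, -, -, -, hrm⟩ := hTDF s Ω hΩ a ha
    obtain ⟨hUb, -, -, -, -, -, -⟩ := hTDF s X hX (G a) hGa
    have hv : rm X (G a) 0 = G (rm Ω a 0) := by
      rw [hUa.val, hUb.val]
    obtain ⟨F, hF, -, hF2⟩ := hTLF s Ω X G hΩ hX hG hmap a ha (G a) hGa 0 h0 0 h0 hv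
    have hq : ∀ z ∈ UD, PL.hq F z = hdf G Ω X (rm Ω a z) := by
      intro z hz
      rw [← hF2 z hz]
      simp only [PL.hq, hd]
      ring
    have h1 := (hHDM F c hc hF.1 hF.2.1 (fun z hz => by
      rw [hq z hz]
      exact hle _ (hrm z hz).1)).1 0 h0
    rw [hq 0 h0, hUa.val] at h1
    exact h1
  obtain ⟨a₀, ha₀⟩ := hne
  obtain ⟨hG1, hG2, -, -, hG3, -⟩ := hISO s Ω X G hΩ hX hG hmap a₀ ha₀ (hone a₀ ha₀)
  refine ⟨hG1, hG2, hG3, fun a ha => (hISO s Ω X G hΩ hX hG hmap a ha (hone a ha)).2.2.2.1, ?_⟩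
  intro a ha y hy
  obtain ⟨-, -, ⟨v, hv, hvu⟩, -⟩ := hISO s Ω X G hΩ hX hG hmap a ha (hone a ha)
  have hGa : G a ∈ X := hmap ha
  obtain ⟨-, -, -, -, hpa, -, hrm⟩ := hTDF s Ω hΩ a ha
  obtain ⟨-, -, -, -, hpb, -, hrm'⟩ := hTDF s X hX (G a) hGa
  obtain ⟨-, -, -, x, hx, hxy, hxn⟩ := hpb y hy
  have hv0 : v ≠ 0 := by
    intro h
    rw [h, norm_zero] at hv
    exact zero_ne_one hv
  have hun : ‖v⁻¹ * x‖ = ‖x‖ := by
    rw [norm_mul, norm_inv, hv, inv_one, one_mul]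
  have hu : v⁻¹ * x ∈ UD := by
    show v⁻¹ * x ∈ ball (0 : ℂ) 1
    have hx' : x ∈ ball (0 : ℂ) 1 := hx
    rw [mem_ball_zero_iff] at hx' ⊢
    rw [hun]
    exact hx'
  have hGz : G (rm Ω a (v⁻¹ * x)) = y := by
    rw [hvu _ hu, mul_inv_cancel_left₀ hv0, hxy]
  have hz : rm Ω a (v⁻¹ * x) ∈ Ω := (hrm _ hu).1
  refine ⟨rm Ω a (v⁻¹ * x), hz, hGz, le_antisymm ?_ ?_⟩
  · calc pd Ω a (rm Ω a (v⁻¹ * x)) ≤ ‖v⁻¹ * x‖ := (hrm _ hu).2.1
      _ = ‖x‖ := hun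
      _ = pd X (G a) y := hxn
  · obtain ⟨-, -, -, x', hx', hxz, hxn'⟩ := hpa _ hz
    have hvx : ‖v * x'‖ = ‖x'‖ := by rw [norm_mul, hv, one_mul]
    have hvm : v * x' ∈ UD := by
      show v * x' ∈ ball (0 : ℂ) 1
      have hx'' : x' ∈ ball (0 : ℂ) 1 := hx'
      rw [mem_ball_zero_iff] at hx'' ⊢
      rw [hvx]
      exact hx''
    have h2 := (hrm' _ hvm).2.1
    rw [← hvu x' hx', hxz, hGz, hvx, hxn'] at h2
    exact h2

end CVL
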